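import Pool.Agent.Y601.SSE.Ac0

set_option autoImplicit false

/-!
# Small-set expansion is not hard under constant-depth reductions

The definitions used in the statement are `cut` in `Pool/Agent/Y601/SSE/Defs.lean` and circuits
(`Circuit`, `nodeVal`, `nodeDepth`) in `Pool/Agent/H568R2/Defs.lean`.

A many-one reduction from parity to `SSE(η, δ)` computed by circuits of constant depth needs
exponential size. So for no `η < 1 / 2` and no `δ` is the problem `SSE(η, δ)` hard for `NP`, or even
for parity, under (nonuniform) `AC0` many-one reductions, whereas `NP`-hardness proofs which do not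
produce a gap usually are such reductions. The same holds for every constant gap between the
expansions in the two cases.

Idea of the proof. A yes instance and a no instance differ in at least a fraction
`(1 - ε - η) δ / 2` of the edges. Under a random restriction which leaves many variables free all
entries of the adjacency matrix become decision trees of small depth `s`, and so at every input at
most `s` of the free variables are sensitive for a given edge. Count the triples of an input, a free
variable and an edge which disappears when the variable is flipped.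
-/

namespace Pool.Agent.Results.MP_8d8c46_lc.ConstantDepthReductions

open Finset DomAC0 Pool.Agent.Y601.SSE
open scoped Classical

/-- For every depth `h` there is `X₀` with the following property. Let `C` be a circuit with `N`
inputs, with NOT gates and AND and OR gates of unbounded fan-in, and let `out u v` be nodes of depth
at most `h` which, for every input `x`, compute the adjacency matrix of a `d x`-regular graph `G x`
with the vertex set `V`, `d x ≥ 1`. Let `1 ≤ k ≤ |V|`, `ε, η ≥ 0` and `ε + η < 1`. If some set of `k`
vertices of `G x` has expansion at most `ε` whenever `x` has an even number of ones, and all sets of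
`k` vertices of `G x` have expansion at least `1 - η` whenever `x` has an odd number of ones, and if
`X = (1 - ε - η) (k / |V|) N ≥ X₀`, then `C` has at least `2 ^ (X ^ (1 / (h + 1)) / 100)` gates. -/
theorem result (h : ℕ) : ∃ X₀ : ℝ, ∀ (N : ℕ) (C : Circuit (Fin N)) (V : Type) [Fintype V]
    (out : V → V → Fin N ⊕ Fin C.size)
    (G : (Fin N → Bool) → SimpleGraph V) (d : (Fin N → Bool) → ℕ) (k : ℕ) (ε η : ℝ),
    (∀ u v, C.nodeDepth (out u v) ≤ h) →
    (∀ x u v, (G x).Adj u v ↔ C.nodeVal x (out u v) = true) →
    (∀ x v, (univ.filter fun w => (G x).Adj v w).card = d x) → (∀ x, 1 ≤ d x) →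
    1 ≤ k → k ≤ Fintype.card V → 0 ≤ ε → 0 ≤ η → ε + η < 1 →
    (∀ x, ¬ Odd (univ.filter fun i => x i = true).card →
      ∃ S : Finset V, S.card = k ∧ (cut (G x) S : ℝ) ≤ ε * (d x * k)) →
    (∀ x, Odd (univ.filter fun i => x i = true).card →
      ∀ S : Finset V, S.card = k → (1 - η) * (d x * k) ≤ cut (G x) S) →
    X₀ ≤ (1 - ε - η) * (k / Fintype.card V) * N →
    (2 : ℝ) ^ (((1 - ε - η) * (k / Fintype.card V) * N) ^ (1 / (h + 1 : ℝ)) / 100) ≤ C.size := by
  obtain ⟨X₀, hX⟩ := ac0_main h
  refine ⟨X₀, ?_⟩
  intro N C V _ out G d k ε η h1 h2 h3 h4 h5 h6 h7 h8 h9 h10 h11 h12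
  exact hX C out G d ε η h1 h2 h3 h4 h5 h6 h7 h8 h9 h10 h11 h12

end Pool.Agent.Results.MP_8d8c46_lc.ConstantDepthReductions
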