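import Pool.Agent.Y601.SSE.Local

set_option autoImplicit false

/-!
# Local reductions from gap 3-SAT to small-set expansion must be large

The definitions used in the statement are `Represents` in `Pool/Agent/Y601/SSE/LocalDefs.lean`,
`cut`, `setOf` in `Pool/Agent/Y601/SSE/Defs.lean`, `Reads`, `SatOn` in
`Pool/Agent/TH700/UG/Defs.lean`, and `Clause`, `Satisfies`, `falsified` in
`Pool/Agent/W888/GX/Mix.lean`.

Reductions by gadgets are local: for every assignment of the formula there is an honest set of
vertices of the graph, whether a vertex is in it depends on few of the variables, and that the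
honest set of a satisfying assignment has the right size and expands little is seen from a few of
the clauses at a time. `Represents F D G d k η` says this for the formula `F` and the graph `G`.

The theorem: for some formulas `F` in `n` variables with `O(n)` clauses, at most a fraction
`7 / 8 + γ` of which can be satisfied, every regular graph `G` with `N` vertices which represents
`F` with locality `D` for sets of `k` vertices and expansion `η`, and in which all sets of `k`
vertices have expansion at least `1 - η`, has more than
`(c n k / (D N)) ^ (log (1 / η) / (300 η))` vertices. So a local reduction which proves that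
`SSE(η, δ)` is NP-hard has size at least `n ^ (c' log (1 / η) / η)`, and in a reduction of
polynomial size some vertex must depend on `n ^ (1 - O(η / log (1 / η)))` variables. This is
unconditional.

Proof: for random formulas there is a pseudo-expectation of linear degree which satisfies all
clauses. Composed with the honest sets it is a solution of level `n / D`, up to a constant, of the
mixed hierarchy, and such solutions do not exist
(`Pool/Agent/Results/MP_8d8c46_lc/SubexponentialHierarchy.lean`).
-/

namespace Pool.Agent.Results.MP_8d8c46_lc.LocalReductions

open Finset Pool.Agent.W888.GX Pool.Agent.Y601.SSE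
open scoped Classical

/-- For every `γ > 0` there are `M` and `c > 0` such that for all large `n` there is a formula `F`
with at least `n` and at most `M n` clauses, with three literals each, over `n` variables, every
assignment of which falsifies at least a fraction `1 / 8 - γ` of the clauses, and with the following
property. If `F` is represented with locality `D ≥ 1` in a `d`-regular graph `G`, `d ≥ 1`, for sets
of `k` vertices, `1 ≤ k ≤ |V|`, and expansion `η`, `0 < η < 1 / 2`, and if all sets of `k` vertices
have expansion at least `1 - η`, then `|V| > (c n k / (D |V|)) ^ (log (1 / η) / (300 η))`. -/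
theorem result : ∀ γ : ℝ, 0 < γ →
    ∃ M : ℕ, 1 ≤ M ∧ ∃ c : ℝ, 0 < c ∧ ∃ n₀ : ℕ, ∀ n : ℕ, n₀ ≤ n →
      ∃ (I : Type) (_ : Fintype I) (F : I → Clause 3 n),
        n ≤ Fintype.card I ∧ Fintype.card I ≤ M * n ∧
        (∀ z, (1 / 8 - γ) * (Fintype.card I : ℝ) ≤ (falsified F z : ℝ)) ∧
        ∀ (D : ℕ) (V : Type) [Fintype V] (G : SimpleGraph V) (d k : ℕ) (η : ℝ), 1 ≤ D → 1 ≤ d →
          (∀ v, (univ.filter fun w => G.Adj v w).card = d) → 1 ≤ k → k ≤ Fintype.card V →
          0 < η → η < 1 / 2 → Represents F D G d k η →
          (∀ S : Finset V, S.card = k → (1 - η) * (d * k) ≤ cut G S) →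
          (c * n * k / (D * Fintype.card V)) ^ (Real.log (1 / η) / (300 * η)) <
            Fintype.card V := by
  intro γ hγ
  obtain ⟨M, hM, c0, hc0, n0, hn0⟩ := Pool.Agent.TH843.LR.exists_formula_card γ hγ
  refine ⟨M, hM, c0 / 304, by positivity, n0, fun n hn => ?_⟩
  obtain ⟨I, hI, F, D0, L, hcard0, hcard, hfar, hD0, hL, hF⟩ := hn0 n hn
  refine ⟨I, hI, F, hcard0, hcard, hfar, ?_⟩
  intro D V _ G d k η hD hd hG hk hkV hη hη1 hR hno
  exact local_size hL F hF c0 hc0 hD0 hD G d k η hd hG hk hkV hη hη1 hR hno

end Pool.Agent.Results.MP_8d8c46_lc.LocalReductions
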