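import Pool.Agent.Y643.PG.SSE

/-!
# Small-set expansion for pure dynamic programs: the sharp threshold `1 - δ`

A (max,+) program (a pure dynamic program, a tropical circuit) computes functions of the weights of
the edges, one after the other; each is an input, a real constant, or the maximum or the sum of two
functions computed before. The graphs are bipartite, with `k m` vertices on each side, and the inputs
are the weights of the `(k m) ^ 2` pairs. Let `δ = 1 / k`. For a set `S` of `2 m` vertices (a
`δ`-fraction of all vertices) of a `d`-regular graph the expansion `Φ S` and the weight `w S` inside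
of `S` satisfy `w S = (1 - Φ S) d m`. So a program whose value is always at most the largest
weight inside a set of `2 m` vertices, and whose value for `G` is `ρ d m`, certifies that some set of
`2 m` vertices of `G` has expansion at most `1 - ρ`.

* There is such a program with `O (m ^ 2)` instructions whose value is at least `1 / k ^ 2` times the
  total weight, for all nonnegative weights, that is, it certifies the expansion `1 - δ` (the one of
  a random set) for all regular graphs.
* The largest weight is computed by a program with `2 ^ (4 k m + 2)` instructions.
* If the value is at least `(δ + ε) m ^ 2` for each disjoint union of `k` complete bipartite graphs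
  with `m + m` vertices (all its vertices are in sets of `2 m` vertices with expansion zero), then the
  program has at least `2 ^ (γ m) - 1` instructions, where `γ > 0` depends on `k` and `ε` only. This
  holds for randomised programs with success probability `2 ^ (- γ m)` too.

So the small-set expansion conjecture holds for pure dynamic programs: programs which tell expansion
`0` from expansion larger than `1 - δ - ε` (in this sense) have exponential size, for all `δ = 1 / k`
and `ε > 0`.

Proof. The lower bound uses the method of helper837 (`Pool.Agent.TH837.MX`) for MAX-3SAT: a small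
program reaches a large value only on few of the planted graphs. To keep the graphs regular, the
vertices of each side are divided into `m` groups of `k` vertices, and each group gets an independent
random permutation of the `k` labels.
-/

set_option autoImplicit false

namespace Pool.Agent.Results.MP_8d8c46_lc.PureDPThreshold

open Pool.Agent.TH837.MX (Computes)
open Pool.Agent.Y643.PG.SSE

/-- The threshold for certifying small expansion of sets of measure `1 / k` by (max,+) programs is
`1 - 1 / k`, even for graphs which are disjoint unions of `k` complete bipartite graphs. -/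
theorem result (k : ℕ) (hk : 1 ≤ k) :
    (∀ m : ℕ, ∃ f : (Side m k × Side m k → ℝ) → ℝ, Computes f ((2 * m ^ 2 + 1) * k ^ 2 + 1) ∧
      ∀ w : Side m k × Side m k → ℝ, (∀ e, 0 ≤ w e) →
        (∃ A B : Finset (Side m k), A.card + B.card = 2 * m ∧ f w ≤ inside A B w) ∧
          ∑ e, w e ≤ k ^ 2 * f w) ∧
    (∀ m : ℕ, ∃ f : (Side m k × Side m k → ℝ) → ℝ, Computes f (2 ^ (4 * (m * k) + 2)) ∧
      ∀ w : Side m k × Side m k → ℝ, (∀ e, 0 ≤ w e) →
        (∃ A B : Finset (Side m k), A.card + B.card = 2 * m ∧ f w ≤ inside A B w) ∧
          ∀ A B : Finset (Side m k), A.card + B.card = 2 * m → inside A B w ≤ f w) ∧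
    (∀ ε : ℝ, 0 < ε → ε ≤ 1 → ∃ γ : ℝ, 0 < γ ∧ ∀ (m : ℕ) (Ω : Type) [Fintype Ω] [Nonempty Ω]
      (f : Ω → (Side m k × Side m k → ℝ) → ℝ), Approx (1 / k + ε) (2 ^ (-(γ * m))) f →
      ∀ s : ℕ, (∀ r, Computes (f r) s) → (2 : ℝ) ^ (γ * m) ≤ s + 1) :=
  ⟨fun m => ⟨prog m k, prog_computes, fun w hw => ⟨prog_sound hk w hw, prog_good w⟩⟩,
    fun m => ⟨brute m k, brute_computes, fun w hw => brute_exact hk w hw⟩,
    fun ε hε hε1 => ⟨gm k ε, gm_pos hk hε, fun _ _ _ _ _ hf _ hs => sse_lower hk hε hε1 hf hs⟩⟩

end Pool.Agent.Results.MP_8d8c46_lc.PureDPThreshold
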