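import Pool.Agent.Y601.SSE.Graph

set_option autoImplicit false

/-!
# Small-set expansion and the mixed hierarchy

Let `G` be a `d`-regular graph on `n` vertices. The level `r` relaxation of the question
whether some set of `k` vertices has expansion at most `η` has a solution if there is such a set, and it has no solution
if all sets of `k` vertices have expansion at least `1 - η` and
`r ≥ 300 (n / k) n ^ (300 η / log (1 / η))`.

The definitions used in the statement are in `Pool/Agent/Y601/SSE/Defs.lean`:

* `cut G S`: the number of edges of `G` with exactly one endpoint in `S`, counted as ordered pairs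
  `(u, v)` with `u ∈ S`, `v ∉ S`;
* `setOf x`: the set of the vertices `v` with `x v = true`, for `x : V → Bool`;
* `DependsOn S f`: `f x` depends only on the values `x v`, `v ∈ S`;
* `IsSolution G d k r η L`: `L` is a linear functional on the functions of `x : V → Bool` such that
  `L 1 = 1`; `L f ≥ 0` for all nonnegative functions `f` of at most `r + 2` of the coordinates;
  `L (g (∑_v c_v (x v)) ^ 2) ≥ 0` for all nonnegative functions `g` of at most `r` of the
  coordinates and all `c`; `L (g |S|) = k L g` for all functions `g` of at most `r` of the
  coordinates; `L (cut G S) ≤ η d k`; where `S = setOf x`.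

Idea of the proof. Removing the edges inside one set we may assume that every set of at most `k / 2`
vertices has at least `1 - 2 η` of its edges leaving it. By the co-area and Cauchy-Schwarz
inequalities, nonnegative functions of small support are contracted by a factor `O(√η)`, and so the
return probabilities of the walk decay to `O(1 / k)` after `log n / log (1 / η)` steps. Hence the
adjacency matrix has few large eigenvalues, measured by the trace of a power. Conditioning on a
vertex which has large covariances with the others lowers the total variance; after `r` steps the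
covariance matrix is almost orthogonal to the adjacency matrix, the product of the marginals has
almost the same value, and independent rounding finds a set of exactly `k` vertices which expands
little.
-/

namespace Pool.Agent.Results.MP_8d8c46_lc.SubexponentialHierarchy

open Finset Pool.Agent.Y601.SSE
open scoped Classical

/-- Let `G` be a `d`-regular graph with `n` vertices, and let `1 ≤ k ≤ n`.
1. If some set of `k` vertices has expansion at most `η`, then the relaxations of all levels have
solutions.
2. If all sets of `k` vertices have expansion at least `1 - η`, where `0 < η < 1 / 2`, then the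
relaxation of level `r` has no solution for all `r ≥ 300 (n / k) n ^ (300 η / log (1 / η))`.
3. If all sets of `k` vertices have expansion at least `1 - η`, where `0 < η ≤ 1 / 64`, and
`l = 1 - ε - 5 η > 0`, then the relaxation of level `r` for expansion at most `ε` has no solution for
all `r ≥ (69 + 46 ε / η) (n / k) l⁻³ n ^ (4 log (1 / l) / log (1 / (16 η)))`. -/
theorem result {V : Type} [Fintype V] (G : SimpleGraph V) (d k : ℕ) (hd : 1 ≤ d)
    (hG : ∀ v, (univ.filter fun w => G.Adj v w).card = d) (hk : 1 ≤ k)
    (hkn : k ≤ Fintype.card V) :
    (∀ η : ℝ, (∃ S : Finset V, S.card = k ∧ (cut G S : ℝ) ≤ η * (d * k)) →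
      ∀ r : ℕ, ∃ L : ((V → Bool) → ℝ) →ₗ[ℝ] ℝ, IsSolution G d k r η L) ∧
    (∀ η : ℝ, 0 < η → η < 1 / 2 →
      (∀ S : Finset V, S.card = k → (1 - η) * (d * k) ≤ cut G S) →
      ∀ r : ℕ, 300 * (Fintype.card V / k) *
        (Fintype.card V : ℝ) ^ (300 * η / Real.log (1 / η)) ≤ r →
      ¬ ∃ L : ((V → Bool) → ℝ) →ₗ[ℝ] ℝ, IsSolution G d k r η L) ∧
    (∀ ε η : ℝ, 0 ≤ ε → 0 < η → η ≤ 1 / 64 → ε + 5 * η < 1 →
      (∀ S : Finset V, S.card = k → (1 - η) * (d * k) ≤ cut G S) →
      ∀ r : ℕ, (69 + 46 * (ε / η)) * (Fintype.card V / k) * (1 / (1 - ε - 5 * η)) ^ 3 *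
        (Fintype.card V : ℝ) ^
          (4 * Real.log (1 / (1 - ε - 5 * η)) / Real.log (1 / (16 * η))) ≤ r →
      ¬ ∃ L : ((V → Bool) → ℝ) →ₗ[ℝ] ℝ, IsSolution G d k r ε L) :=
  ⟨fun _ ⟨S, hS, hc⟩ r => exists_solution S hS hc r,
    fun η h0 h1 hno r hr => graph_gap hd hG hk hkn η h0 h1 hno r hr,
    fun ε η h0 h1 h2 h3 hno r hr => graph_gen hd hG hk hkn ε η h0 h1 h2 h3 hno r hr⟩

end Pool.Agent.Results.MP_8d8c46_lc.SubexponentialHierarchy
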